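import Pool.Agent.H87.SN.Targets

/-!
# JLB: lower bound of `J` in the core
-/

set_option autoImplicit false

namespace Pool.Agent.H34.SN

open MeasureTheory Metric Set Filter Topology
open scoped ContDiff RealInnerProductSpace
open Pool.Agent.H87.SN

theorem kerJ_cont (s : ℝ) (hs : 0 < s) : Continuous fun τ : ℝ => kerJ s τ := by
  unfold kerJ
  apply Continuous.rpow_const
  · apply Continuous.div continuous_const (by fun_prop)
    intro τ
    positivity
  · intro τ
    right
    norm_num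

theorem kerJ_lb (s τ y : ℝ) (hy : 0 < y) (hs : s = y ^ 2) (h : |τ| ≤ s) :
    1 / (8 * y ^ 3) ≤ kerJ s τ := by
  unfold kerJ
  have hs0 : 0 < s := by rw [hs]; positivity
  have h1 : τ ^ 2 ≤ s ^ 2 := by
    rw [← sq_abs τ]
    exact pow_le_pow_left₀ (abs_nonneg _) h 2
  have h2 : (1 / (2 * y)) ^ 2 ≤ s / (s ^ 2 + τ ^ 2 / 100) := by
    rw [le_div_iff₀ (by positivity), div_pow, one_pow, mul_pow, ← hs]
    rw [div_mul_eq_mul_div, div_le_iff₀ (by positivity)]
    nlinarith
  have h3 : ((1 / (2 * y)) ^ 2) ^ (3 / 2 : ℝ) = 1 / (8 * y ^ 3) := by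
    have h4 : (0 : ℝ) ≤ 1 / (2 * y) := by positivity
    rw [← Real.rpow_natCast (1 / (2 * y)) 2, ← Real.rpow_mul h4]
    have h5 : ((2 : ℕ) : ℝ) * (3 / 2) = ((3 : ℕ) : ℝ) := by norm_num
    rw [h5, Real.rpow_natCast]
    field_simp
    norm_num
  rw [← h3]
  exact Real.rpow_le_rpow (by positivity) h2 (by norm_num)

theorem pf_JLB : T_JLB := by
  intro M
  obtain ⟨κ, hκ⟩ : ∃ κ : ℝ, κ = 1 / (4 * (|M| + 1)) := ⟨_, rfl⟩
  have hM0 : 0 ≤ |M| := abs_nonneg M
  have hκ0 : 0 < κ := by rw [hκ]; positivity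
  have hκ1 : κ ≤ 1 / 4 := by
    rw [hκ]
    apply one_div_le_one_div_of_le (by norm_num)
    linarith
  have hκM : κ * |M| ≤ 1 / 4 := by
    rw [hκ, div_mul_eq_mul_div, div_le_iff₀ (by positivity)]
    linarith
  refine ⟨κ / 8, by positivity, ?_⟩
  intro r hr h01 hd s τ hs hτ hsr
  have hcont : Continuous fun t : ℝ => Real.sqrt (r t) * kerJ s (τ - t) :=
    (hr.continuous.sqrt).mul ((kerJ_cont s hs).comp (by fun_prop))
  obtain ⟨y, hy⟩ : ∃ y : ℝ, y = Real.sqrt s := ⟨_, rfl⟩
  have hy0 : 0 < y := by rw [hy]; exact Real.sqrt_pos.mpr hs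
  have hsy : s = y ^ 2 := by rw [hy, Real.sq_sqrt hs.le]
  have hs2 : s ≤ 2 := by linarith [(h01 τ).2]
  have hκs : κ * s ≤ 1 / 2 := by nlinarith
  have hκs0 : 0 < κ * s := by positivity
  have hτ' := abs_le.mp hτ
  unfold Jf
  have h1 : (∫ t in (τ - κ * s)..(τ + κ * s), Real.sqrt (r t) * kerJ s (τ - t)) ≤
      ∫ t in (-3 : ℝ)..3, Real.sqrt (r t) * kerJ s (τ - t) := by
    apply intervalIntegral.integral_mono_interval (by linarith) (by linarith) (by linarith)
    · refine Eventually.of_forall fun t => ?_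
      apply mul_nonneg (Real.sqrt_nonneg _)
      unfold kerJ
      positivity
    · exact hcont.intervalIntegrable _ _
  refine le_trans ?_ h1
  have h2 : (∫ _t in (τ - κ * s)..(τ + κ * s), y / 2 * (1 / (8 * y ^ 3))) ≤
      ∫ t in (τ - κ * s)..(τ + κ * s), Real.sqrt (r t) * kerJ s (τ - t) := by
    apply intervalIntegral.integral_mono_on (by linarith) (intervalIntegrable_const)
      (hcont.intervalIntegrable _ _)
    intro t ht
    have ht' : |τ - t| ≤ κ * s := by
      rw [abs_le]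
      constructor <;> linarith [ht.1, ht.2]
    apply mul_le_mul _ _ (by positivity) (Real.sqrt_nonneg _)
    · have h3 : ‖r t - r τ‖ ≤ M * ‖t - τ‖ :=
        Convex.norm_image_sub_le_of_norm_deriv_le (s := Set.univ)
          (fun x _ => (hr.differentiable (by norm_num)).differentiableAt)
          (fun x _ => by rw [Real.norm_eq_abs]; exact hd x) convex_univ (mem_univ _) (mem_univ _)
      rw [Real.norm_eq_abs, Real.norm_eq_abs, abs_sub_comm t τ] at h3
      have h4 : M * |τ - t| ≤ |M| * (κ * s) :=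
        mul_le_mul (le_abs_self M) ht' (abs_nonneg _) hM0
      have h5 : |M| * (κ * s) ≤ s / 4 := by nlinarith
      have h6 := (abs_le.mp (h3.trans (h4.trans h5))).1
      have h7 : s / 4 ≤ r t := by linarith
      have h8 : y / 2 = Real.sqrt (s / 4) := by
        rw [show s / 4 = (y / 2) ^ 2 by rw [hsy]; ring, Real.sqrt_sq (by positivity)]
      rw [h8]
      exact Real.sqrt_le_sqrt h7
    · apply kerJ_lb s (τ - t) y hy0 hsy
      refine ht'.trans ?_
      nlinarith
  refine le_trans (le_of_eq ?_) h2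
  rw [intervalIntegral.integral_const, smul_eq_mul, hsy]
  field_simp
  ring

end Pool.Agent.H34.SN
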