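import Pool.Agent.H87.SN.Targets

/-!
# TH1: theorem (I)
-/

set_option autoImplicit false

namespace Pool.Agent.H34.SN

open MeasureTheory Metric Set Filter Topology
open scoped ContDiff RealInnerProductSpace
open Pool.Agent.H87.SN

theorem rho_cont {d : ℕ} : Continuous (rho : E (d + 2) → ℝ) := by
  unfold rho
  fun_prop

theorem zp_cont {d : ℕ} : Continuous (zp : E (d + 2) → E d) := by
  unfold zp
  exact (PiLp.continuous_toLp 2 _).comp (continuous_pi fun i => by fun_prop)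

theorem nsq_nonneg {n : ℕ} {F : Type*} [NormedAddCommGroup F] [NormedSpace ℝ F]
    (L : E n →L[ℝ] F) : 0 ≤ nsq L := by
  unfold nsq
  positivity

theorem pf_TH1 (hNKD : T_NKD) (hEN3 : T_EN3) (hPRW : T_PRW) (hPR1 : T_PR1) (hIN1 : T_IN1)
    (hCSF : T_CSF) : T_TH1 := by
  intro m N A hN hA
  obtain ⟨δ, hδ0, hδ⟩ := hNKD m N A hN hA
  refine ⟨δ, hδ0, ?_⟩
  intro d α M hα
  have hα' : 0 < min α 1 := lt_min hα one_pos
  obtain ⟨C₁, hC₁, h1⟩ := hPR1 d (min α 1) (max M 0) hα' (min_le_right _ _)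
  obtain ⟨C₂, hC₂, h2⟩ := hIN1 d (min α 1) C₁ hα' (min_le_right _ _)
  obtain ⟨K₃, hK₃, h3⟩ := hEN3 d C₁ 4 (max M 0)
  refine ⟨Real.sqrt (K₃ * C₂), ?_⟩
  intro r hr h01 hR u G hSt hu hsm
  have hpos : ∀ z, 0 < r z := fun z => (h01 z).1
  have hcr := hr.continuous
  have hnd := hδ d r u G hcr hpos hSt hu hsm
  have hg : ∀ z, ‖fderiv ℝ r z‖ ≤ max M 0 * r z ^ (min α 1) := by
    intro z
    refine (hR z).trans ?_
    have h4 : r z ^ α ≤ r z ^ (min α 1) :=
      Real.rpow_le_rpow_of_exponent_ge (hpos z) (h01 z).2 (min_le_left _ _)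
    exact mul_le_mul (le_max_left _ _) h4 (Real.rpow_nonneg (hpos z).le _) (le_max_right _ _)
  have hg1 : ∀ z, ‖fderiv ℝ r z‖ ≤ max M 0 := by
    intro z
    refine (hg z).trans ?_
    have h4 : r z ^ (min α 1) ≤ 1 := Real.rpow_le_one (hpos z).le (h01 z).2 hα'.le
    calc max M 0 * r z ^ (min α 1) ≤ max M 0 * 1 :=
          mul_le_mul_of_nonneg_left h4 (le_max_right _ _)
      _ = max M 0 := mul_one _
  obtain ⟨H, W, hProf, hbd⟩ := h1 r hr h01 hg
  obtain ⟨η, hW⟩ := hPRW d r C₁ H W hcr hpos hProf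
  have h4 := h3 r hr hpos hg1 η _ hW m u G hnd
  have h5 := h2 r W hcr h01 hProf.W_C1.continuousOn hProf.W_pos hbd
  have hE : 0 ≤ ∫ x in ball (0 : E (d + 2)) 2, nsq (G x) :=
    integral_nonneg fun x => nsq_nonneg _
  have hwc : ContinuousOn (fun x : E (d + 2) => W (rho x, zp x)) {x | 0 < rho x} := by
    apply hProf.W_C1.continuousOn.comp
    · exact (rho_cont.prodMk zp_cont).continuousOn
    · intro x hx
      exact hx
  have h6 := hCSF d m r (fun x => W (rho x, zp x)) u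
    (K₃ * ∫ x in ball (0 : E (d + 2)) 2, nsq (G x)) C₂ (mul_nonneg hK₃ hE) hC₂ hcr hpos hu hwc
    (fun x hx => hProf.W_pos _ hx) h4 h5
  refine h6.trans (le_of_eq ?_)
  congr 1
  rw [← Real.sqrt_mul (mul_nonneg hK₃ hC₂)]
  congr 1
  ring

end Pool.Agent.H34.SN
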