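import Pool.Agent.H34.SN.TH1

/-!
# TH2: theorem (II)
-/

set_option autoImplicit false

namespace Pool.Agent.H34.SN

open MeasureTheory Metric Set Filter Topology
open scoped ContDiff RealInnerProductSpace
open Pool.Agent.H87.SN

theorem pf_TH2 (hNKD : T_NKD) (hEN3 : T_EN3) (hPRW : T_PRW) (hPR2 : T_PR2) (hIN2 : T_IN2)
    (hCSF : T_CSF) : T_TH2 := by
  intro m N A hN hA
  obtain ⟨δ, hδ0, hδ⟩ := hNKD m N A hN hA
  refine ⟨δ, hδ0, ?_⟩
  intro M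
  obtain ⟨C₁, hC₁, h1⟩ := hPR2 M
  obtain ⟨C₂, hC₂, h2⟩ := hIN2 M
  obtain ⟨K₃, hK₃, h3⟩ := hEN3 1 C₁ 4 M
  refine ⟨Real.sqrt (K₃ * C₂), ?_⟩
  intro r hr h01 hR u G hSt hu hsm
  have hpos : ∀ z, 0 < r z := fun z => (h01 z).1
  have hcr := hr.continuous
  have hnd := hδ 1 r u G hcr hpos hSt hu hsm
  obtain ⟨H, hProf⟩ := h1 r hr h01 hR
  obtain ⟨η, hW⟩ := hPRW 1 r C₁ H _ hcr hpos hProf
  have h4 := h3 r hr hpos hR η _ hW m u G hnd
  have h5 := h2 r hr h01 hR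
  have hE : 0 ≤ ∫ x in ball (0 : E (1 + 2)) 2, nsq (G x) :=
    integral_nonneg fun x => nsq_nonneg _
  have hwc : ContinuousOn (fun x : E (1 + 2) => (fun p : ℝ × E 1 =>
      (p.1 + Jf (fun t => r (EuclideanSpace.single 0 t)) p.1 (p.2 0))⁻¹) (rho x, zp x))
      {x | 0 < rho x} := by
    apply hProf.W_C1.continuousOn.comp
    · exact (rho_cont.prodMk zp_cont).continuousOn
    · intro x hx
      exact hx
  have h6 := hCSF 1 m r (fun x => (fun p : ℝ × E 1 =>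
      (p.1 + Jf (fun t => r (EuclideanSpace.single 0 t)) p.1 (p.2 0))⁻¹) (rho x, zp x)) u
    (K₃ * ∫ x in ball (0 : E (1 + 2)) 2, nsq (G x)) C₂ (mul_nonneg hK₃ hE) hC₂ hcr hpos hu hwc
    (fun x hx => hProf.W_pos _ hx) h4 h5
  refine h6.trans (le_of_eq ?_)
  congr 1
  rw [← Real.sqrt_mul (mul_nonneg hK₃ hC₂)]
  congr 1
  ring

end Pool.Agent.H34.SN
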